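import Mathlib

/-! Finite quotients of `ℤ[π]`, `π ^ (p - 1) = -p`, and their principal units. -/

namespace Pool.Agent.Lib.MP_6bdd40_al

open Polynomial

/-- the data of a finite ring with uniformiser `π` of nilpotency index `n` -/
structure Dw (p n : ℕ) {R : Type} [CommRing R] (π : R) (res : R →+* ZMod p) : Prop where
  pw : π ^ (p - 1) = -p
  z : π ^ n = 0
  nz : π ^ (n - 1) ≠ 0
  ker : ∀ a, res a = 0 ↔ π ∣ a

theorem dw_exists {p : ℕ} (hp : p.Prime) {n : ℕ} (hn : 1 ≤ n) :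
    ∃ (R : Type) (_ : CommRing R) (_ : Finite R) (π : R) (res : R →+* ZMod p), Dw p n π res := by
  have h1 : p - 1 ≠ 0 := by have := hp.two_le; omega
  have hm : (X ^ (p - 1) + C (p : ℤ) : ℤ[X]).Monic := monic_X_pow_add_C _ h1
  set f : ℤ[X] := X ^ (p - 1) + C (p : ℤ) with hf
  let A := AdjoinRoot f
  let x : A := AdjoinRoot.root f
  have hx : x ^ (p - 1) = -p := by
    have := AdjoinRoot.eval₂_root f
    rw [hf, eval₂_add, eval₂_X_pow, eval₂_C] at this
    rw [eq_neg_iff_add_eq_zero]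
    simpa using this
  have fr : Module.Free ℤ A := hm.free_adjoinRoot
  have fi : Module.Finite ℤ A := hm.finite_adjoinRoot
  let r : A →+* ZMod p := AdjoinRoot.lift (Int.castRingHom _) 0 (by
    rw [hf, eval₂_add, eval₂_X_pow, eval₂_C, zero_pow h1]; simp)
  have r0 : r x = 0 := AdjoinRoot.lift_root _
  have dec : ∀ a : A, ∃ (k : ℤ) (b : A), a = k + x * b := fun a => by
    induction a using AdjoinRoot.induction_on with
    | ih g =>
      refine ⟨g.coeff 0, AdjoinRoot.mk f g.divX, ?_⟩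
      conv_lhs => rw [← X_mul_divX_add g]
      rw [map_add, map_mul, AdjoinRoot.mk_X, add_comm]
      simp [x]
  have xp : x ∣ (p : A) := by
    rw [← dvd_neg, ← hx]
    exact dvd_pow_self _ h1
  have rk : ∀ a, r a = 0 → x ∣ a := fun a ha => by
    obtain ⟨k, b, rfl⟩ := dec a
    rw [map_add, map_mul, r0, zero_mul, add_zero, map_intCast,
      ZMod.intCast_zmod_eq_zero_iff_dvd] at ha
    obtain ⟨c, rfl⟩ := ha
    push_cast
    exact dvd_add (xp.mul_right _) (dvd_mul_right _ _)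
  have reg : ∀ a : A, x * a = 0 → a = 0 := fun a ha => by
    obtain ⟨m, hm⟩ := Nat.exists_eq_succ_of_ne_zero h1
    have : (p : ℤ) • a = 0 := by
      rw [zsmul_eq_mul, Int.cast_natCast, ← neg_eq_zero, ← neg_mul, ← hx, hm, pow_succ, mul_assoc,
        ha, mul_zero]
    exact (smul_eq_zero.1 this).resolve_left (by exact_mod_cast hp.ne_zero)
  have regk : ∀ (k : ℕ) (a : A), x ^ k * a = 0 → a = 0 := fun k => by
    induction k with
    | zero => simp
    | succ k ih => exact fun a ha => reg _ (ih _ (by rw [← mul_assoc, ← pow_succ, ha]))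
  let I : Ideal A := Ideal.span {x ^ n}
  have hI : ∀ a ∈ I, r a = 0 := fun a ha => by
    obtain ⟨c, rfl⟩ := Ideal.mem_span_singleton.1 ha
    rw [map_mul, map_pow, r0, zero_pow (by omega), zero_mul]
  have z : Ideal.Quotient.mk I x ^ n = 0 := by
    rw [← map_pow, Ideal.Quotient.eq_zero_iff_mem]
    exact Ideal.mem_span_singleton_self _
  have pw : Ideal.Quotient.mk I x ^ (p - 1) = -p := by rw [← map_pow, hx]; simp
  refine ⟨A ⧸ I, inferInstance, ?_, Ideal.Quotient.mk I x, Ideal.Quotient.lift I r hI,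
    pw, z, fun h => ?_, fun a => ?_⟩
  · have : Module.Finite ℤ (A ⧸ I) :=
      Module.Finite.of_surjective (Ideal.Quotient.mk I).toAddMonoidHom.toIntLinearMap
        Ideal.Quotient.mk_surjective
    refine Module.finite_of_fg_torsion _ fun a => ⟨⟨(-p : ℤ) ^ n, ?_⟩, ?_⟩
    · exact mem_nonZeroDivisors_of_ne_zero (pow_ne_zero _ (by simpa using hp.ne_zero))
    · change ((-p : ℤ) ^ n) • a = 0
      rw [zsmul_eq_mul]
      push_cast
      rw [← pw, ← pow_mul, mul_comm (p - 1), pow_mul, z, zero_pow h1, zero_mul]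
  · rw [← map_pow, Ideal.Quotient.eq_zero_iff_mem] at h
    obtain ⟨c, hc⟩ := Ideal.mem_span_singleton.1 h
    obtain ⟨m, rfl⟩ := Nat.exists_eq_add_of_le' hn
    have := regk m (1 - x * c) (by
      rw [mul_sub, mul_one, ← mul_assoc, ← pow_succ, ← hc, Nat.add_sub_cancel, sub_self])
    have h2 := congrArg r this
    rw [map_sub, map_mul, r0, zero_mul, sub_zero, map_one, map_zero] at h2
    have := Fact.mk hp
    exact one_ne_zero h2
  · obtain ⟨a, rfl⟩ := Ideal.Quotient.mk_surjective a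
    rw [Ideal.Quotient.lift_mk]
    refine ⟨fun h => map_dvd _ (rk a h), fun ⟨c, hc⟩ => ?_⟩
    obtain ⟨c, rfl⟩ := Ideal.Quotient.mk_surjective c
    have := hI _ (Ideal.Quotient.eq.1 (hc.trans (map_mul _ _ _).symm))
    rwa [map_sub, map_mul, r0, zero_mul, sub_zero] at this

variable {p n : ℕ} {R : Type} [CommRing R] {π : R} {res : R →+* ZMod p}

/-- principal units -/
def Un (res : R →+* ZMod p) : Subgroup Rˣ := (Units.map res.toMonoidHom).ker

theorem mem_Un {u : Rˣ} : u ∈ Un res ↔ res u = 1 := by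
  rw [Un, MonoidHom.mem_ker, Units.ext_iff]; rfl

theorem Dw.unit (h : Dw p n π res) {a : R} (ha : res a = 0) : ∃ u : Un res, (u.1 : R) = 1 + a := by
  obtain ⟨c, rfl⟩ := (h.ker a).1 ha
  have : IsNilpotent (π * c) := ⟨n, by rw [mul_pow, h.z, zero_mul]⟩
  obtain ⟨u, hu⟩ := this.isUnit_one_add
  exact ⟨⟨u, mem_Un.2 (by rw [hu, map_add, ha, map_one, add_zero])⟩, hu⟩

theorem Dw.card (h : Dw p n π res) : Nat.card (Un res) = Nat.card (RingHom.ker res) := by
  refine Nat.card_eq_of_bijective (fun u => ⟨(u.1 : R) - 1, ?_⟩) ⟨fun u v e => ?_, fun a => ?_⟩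
  · rw [RingHom.mem_ker, map_sub, mem_Un.1 u.2, map_one, sub_self]
  · exact Subtype.ext (Units.ext (sub_left_inj.1 (congrArg Subtype.val e)))
  · obtain ⟨u, hu⟩ := h.unit a.2
    exact ⟨u, Subtype.ext (by simp [hu])⟩

theorem Dw.dvdp (h : Dw p n π res) : π ^ (p - 1) ∣ (p : R) := by rw [h.pw, neg_dvd]

theorem Dw.ppi (h : Dw p n π res) (hp : p.Prime) : (p : R) * π = -π ^ p := by
  obtain ⟨m, hm⟩ := Nat.exists_eq_succ_of_ne_zero hp.ne_zero
  have := h.pw
  rw [← neg_neg (p : R), ← this, hm, Nat.succ_sub_one, pow_succ, neg_mul]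

theorem Dw.pow1 (h : Dw p n π res) (hp : p.Prime) (u : Un res) :
    π ^ (p + 1) ∣ (u.1 : R) ^ p - 1 := by
  obtain ⟨a, ha⟩ := (h.ker (u.1 - 1)).1 (by rw [map_sub, mem_Un.1 u.2, map_one, sub_self])
  rw [sub_eq_iff_eq_add] at ha
  have := Fact.mk hp
  obtain ⟨b, hb⟩ := (h.ker (a ^ p - a)).1 (by rw [map_sub, map_pow, ZMod.pow_card, sub_self])
  have e1 := h.ppi hp
  have e2 := h.dvdp
  obtain ⟨m, rfl⟩ : ∃ m, p = m + 2 := ⟨p - 2, by have := hp.two_le; omega⟩
  rw [ha, add_pow, Finset.sum_range_succ, Finset.sum_range_succ', Finset.sum_range_succ']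
  have e3 : π ^ (m + 2 + 1) ∣ ∑ k ∈ Finset.range m, (π * a) ^ (k + 1 + 1) *
      1 ^ (m + 2 - (k + 1 + 1)) * ((m + 2).choose (k + 1 + 1) : R) := by
    refine Finset.dvd_sum fun k hk => ?_
    have := Finset.mem_range.1 hk
    rw [show m + 2 + 1 = 2 + (m + 2 - 1) by omega, pow_add]
    refine mul_dvd_mul ((pow_dvd_pow π (show 2 ≤ k + 1 + 1 by omega)).trans ?_) (e2.trans (Nat.cast_dvd_cast
      (hp.dvd_choose_self (by omega) (by omega))))
    rw [one_pow, mul_one, mul_pow]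
    exact dvd_mul_right _ _
  obtain ⟨c, hc⟩ := e3
  refine ⟨c + b, ?_⟩
  rw [hc]
  simp only [Nat.choose_self, Nat.choose_one_right, Nat.choose_zero_right, zero_add, one_pow,
    pow_zero, pow_one, mul_pow, Nat.cast_one]
  linear_combination a * e1 + π ^ (m + 2) * hb

theorem Dw.exp1 (h : Dw p (p + 1) π res) (hp : p.Prime) (u : Un res) : u ^ p ^ (0 + 1) = 1 := by
  have := h.pow1 hp u
  rw [h.z, zero_dvd_iff, sub_eq_zero] at this
  exact Subtype.ext (Units.ext (by simpa using this))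

theorem Dw.exp2 (h : Dw p (2 * p) π res) (hp : p.Prime) (u : Un res) : u ^ p ^ (1 + 1) = 1 := by
  obtain ⟨b, hb⟩ := h.pow1 hp u
  obtain ⟨r, hr⟩ := exists_add_pow_prime_eq hp (1 : R) (π ^ (p + 1) * b)
  have h2 := hp.two_le
  have e1 : (π ^ (p + 1) * b) ^ p = 0 := by
    rw [mul_pow, ← pow_mul, pow_eq_zero_of_le (by nlinarith) h.z, zero_mul]
  have e2 : (p : R) * π ^ (p + 1) = 0 := by
    obtain ⟨c, hc⟩ := h.dvdp
    rw [hc, mul_right_comm, ← pow_add, show p - 1 + (p + 1) = 2 * p by omega, h.z, zero_mul]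
  have : ((u.1 : R) ^ p) ^ p = 1 := by
    rw [sub_eq_iff_eq_add'.1 hb, hr, e1, mul_one, ← mul_assoc, e2]
    simp
  refine Subtype.ext (Units.ext ?_)
  rw [pow_succ, pow_one, pow_mul]
  simpa using this

theorem ex_theta (hp : p.Prime) {G H : Type} [CommGroup G] [Finite G] [Group H] {k : ℕ}
    (h : ∀ g : G, g ^ p ^ (k + 1) = 1) {z : G} (hz : z ^ p ^ k ≠ 1) {w : H}
    (hw : w ^ p ^ (k + 1) = 1) : ∃ θ : G →* H, θ z = w ∧ ∀ g, θ g ∈ Subgroup.zpowers w := by
  have := Fact.mk hp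
  have : NeZero (Monoid.exponent G) := ⟨Monoid.exponent_ne_zero_of_finite⟩
  have : NeZero (p ^ (k + 1)) := ⟨pow_ne_zero _ hp.ne_zero⟩
  obtain ⟨φ, hφ⟩ := CommGroup.exists_apply_ne_one_of_hasEnoughRootsOfUnity G ℂ hz
  let ψ : G →* rootsOfUnity (p ^ (k + 1)) ℂ :=
    φ.codRestrict _ fun g => by rw [mem_rootsOfUnity, ← map_pow, h, map_one]
  have o : orderOf (ψ z) = p ^ (k + 1) := orderOf_eq_prime_pow
    (fun e => hφ (by rw [map_pow]; exact congrArg Subtype.val e)) (by rw [← map_pow, h, map_one])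
  have hg : ∀ x, x ∈ Subgroup.zpowers (ψ z) := fun x => by
    rw [(Subgroup.card_eq_iff_eq_top (Subgroup.zpowers (ψ z))).1
      (by rw [Nat.card_zpowers, o, Complex.card_rootsOfUnity])]
    trivial
  have hd : orderOf w ∣ orderOf (ψ z) := by rw [o]; exact orderOf_dvd_of_pow_eq_one hw
  exact ⟨(monoidHomOfForallMemZpowers hg hd).comp ψ, monoidHomOfForallMemZpowers_apply_gen hg hd,
    fun g => ⟨_, rfl⟩⟩

end Pool.Agent.Lib.MP_6bdd40_al
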