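import Pool.Agent.Lib.MP_6bdd40_al.General
import Pool.Agent.Lib.MP_6bdd40_al.AllA

/-! The module, the acting group and the counterexample for every odd prime. -/

namespace Pool.Agent.Lib.MP_6bdd40_al

open Multiplicative

theorem general_p {p : ℕ} (hp : p.Prime) {M T : Type} [AddCommGroup M] [Group T]
    [DistribMulAction T M] [Finite M] [Finite T] (lam mu : M)
    (hfree : ∀ t : T, t • lam = lam → t = 1) (hM : Nat.card M = p ^ 2 * Nat.card T)
    (h3 : ∀ m : M, p ^ 3 • m = 0) (ha : ∀ t : T, t • lam ≠ lam + p ^ 2 • mu) :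
    ∃ (P : Type) (_ : Group P) (_ : Finite P) (V : Type) (_ : AddCommGroup V) (_ : Module ℂ V)
      (_ : FiniteDimensional ℂ V) (ρ : Representation ℂ P V) (x : P),
      IsPGroup p P ∧ ρ.IsIrreducible ∧ ρ.character x ≠ 0 ∧
      Nat.card P = p ^ 2 * Module.finrank ℂ V ^ 2 ∧ orderOf x = p ^ 3 := by
  have := Fintype.ofFinite M
  have := Fintype.ofFinite T
  have := Fact.mk hp
  obtain ⟨ψ, h1, h2⟩ := exists_char lam (p ^ 2 • mu) ha
  have c : Nat.card (Grp M T) = Nat.card M * Nat.card T := by
    rw [SemidirectProduct.card, Nat.card_eq_fintype_card, AddChar.card_eq,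
      ← Nat.card_eq_fintype_card]
  obtain ⟨a, hA⟩ := IsPGroup.iff_card.1 (show IsPGroup p (Multiplicative M) from fun g =>
    ⟨3, congrArg ofAdd (h3 g.toAdd)⟩)
  rw [Nat.card_congr Multiplicative.toAdd] at hA
  obtain ⟨b, -, hB⟩ := (Nat.dvd_prime_pow hp).1 (hA ▸ Dvd.intro_left _ hM.symm)
  refine ⟨Grp M T, inferInstance, Nat.finite_of_card_ne_zero ?_, T → ℂ, inferInstance,
    inferInstance, inferInstance, rep lam, SemidirectProduct.inl ψ,
    IsPGroup.of_card (n := a + b) (by rw [c, hA, hB, pow_add]), rep_irreducible lam hfree,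
    by rwa [char_inl], ?_, ?_⟩
  · rw [c]
    exact mul_ne_zero Nat.card_pos.ne' Nat.card_pos.ne'
  · rw [Module.finrank_fintype_fun_eq_card, ← Nat.card_eq_fintype_card, c, hM]
    ring
  · rw [orderOf_injective _ SemidirectProduct.inl_injective]
    refine orderOf_eq_prime_pow (n := 2) (fun h => h1 ?_) ?_
    · have := DFunLike.congr_fun h mu
      rw [AddChar.map_nsmul_eq_pow]
      simpa using this
    · ext m
      have : ψ (p ^ 3 • m) = 1 := by rw [h3]; exact ψ.map_zero_eq_one
      rw [AddChar.map_nsmul_eq_pow] at this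
      simpa using this

variable {p : ℕ} {R W : Type} [CommRing R] [CommRing W] [Fintype W] (res : R →+* ZMod p)
  (S : Subgroup Wˣ) (θ : Un res →* Multiplicative W)

/-- the weighted sum of the values of `θ` -/
def PhA : (W → Un res) →* Multiplicative W where
  toFun u := ofAdd (∑ j, (θ (u j)).toAdd * j)
  map_one' := by simp
  map_mul' u v := by simp [add_mul, Finset.sum_add_distrib]

/-- the acting group -/
def TA : Subgroup ((W → Un res) ⋊[mulAutArrow] S) where
  carrier := {g | (PhA res θ g.left).toAdd = g.right.1 - 1}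
  one_mem' := by simp
  mul_mem' := by
    intro g h hg hh
    simp only [Set.mem_ofPred_eq] at *
    have e : (PhA res θ (mulAutArrow g.right h.left)).toAdd =
        g.right.1 * (PhA res θ h.left).toAdd := by
      change ∑ j, (θ (h.left (g.right⁻¹ • j))).toAdd * j = g.right.1 * ∑ j, (θ (h.left j)).toAdd * j
      rw [Finset.mul_sum, ← Equiv.sum_comp (MulAction.toPerm g.right)]
      refine Finset.sum_congr rfl fun j _ => ?_
      rw [MulAction.toPerm_apply, inv_smul_smul, mul_left_comm]
      rfl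
    rw [SemidirectProduct.mul_left, map_mul, toAdd_mul, e, hg, hh, SemidirectProduct.mul_right]
    push_cast
    ring
  inv_mem' := by
    intro g hg
    simp only [Set.mem_ofPred_eq] at *
    have e : (PhA res θ (mulAutArrow g.right⁻¹ g.left⁻¹)).toAdd =
        g.right⁻¹.1 * (PhA res θ g.left⁻¹).toAdd := by
      change ∑ j, (θ (g.left⁻¹ (g.right⁻¹⁻¹ • j))).toAdd * j =
        g.right⁻¹.1 * ∑ j, (θ (g.left⁻¹ j)).toAdd * j
      rw [Finset.mul_sum, ← Equiv.sum_comp (MulAction.toPerm g.right⁻¹)]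
      refine Finset.sum_congr rfl fun j _ => ?_
      rw [MulAction.toPerm_apply, inv_smul_smul, mul_left_comm]
      rfl
    rw [SemidirectProduct.inv_left, e, map_inv, toAdd_inv, hg, SemidirectProduct.inv_right]
    simp [mul_sub]

/-- the module -/
def MA (W : Type) [Zero W] : AddSubgroup (W → R) where
  carrier := {r | ∀ j, res (r j) = res (r 0)}
  add_mem' := fun ha hb j => by rw [Pi.add_apply, Pi.add_apply, map_add, map_add, ha j, hb j]
  zero_mem' := fun _ => rfl
  neg_mem' := fun ha j => by rw [Pi.neg_apply, Pi.neg_apply, map_neg, map_neg, ha j]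

instance : SMul (TA res S θ) (MA res W) where
  smul g r := ⟨fun j => (g.1.left j).1 * r.1 (g.1.right⁻¹ • j), fun j => by
    simp only [map_mul, mem_Un.1 (g.1.left _).2, one_mul]
    rw [r.2, r.2 (g.1.right⁻¹ • 0)]⟩

theorem smul_valA (g : TA res S θ) (r : MA res W) (j : W) :
    (g • r).1 j = (g.1.left j).1 * r.1 (g.1.right⁻¹ • j) := rfl

instance : DistribMulAction (TA res S θ) (MA res W) where
  one_smul r := Subtype.ext (funext fun j => by rw [smul_valA]; simp)
  mul_smul g h r := Subtype.ext (funext fun j => by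
    simp only [smul_valA, Subgroup.coe_mul, SemidirectProduct.mul_left,
      SemidirectProduct.mul_right, Pi.mul_apply, Units.val_mul, mul_inv_rev, mul_smul, mul_assoc]
    rfl)
  smul_zero g := Subtype.ext (funext fun j => by rw [smul_valA]; simp)
  smul_add g a b := Subtype.ext (funext fun j => by
    simp only [smul_valA, AddSubgroup.coe_add, Pi.add_apply, mul_add])

theorem card_MA [NeZero p] :
    Nat.card (MA res W) = p * Nat.card (RingHom.ker res) ^ Nat.card W := by
  obtain ⟨l, hl⟩ := (ZMod.ringHom_surjective res).hasRightInverse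
  let E : MA res W ≃ ZMod p × (W → RingHom.ker res) :=
    { toFun := fun r => (res (r.1 0), fun j => ⟨r.1 j - l (res (r.1 0)), by
        rw [RingHom.mem_ker, map_sub, hl, r.2 j, sub_self]⟩)
      invFun := fun q => ⟨fun j => (q.2 j).1 + l q.1, fun j => by
        simp only [map_add, RingHom.mem_ker.1 (q.2 _).2]⟩
      left_inv := fun r => Subtype.ext (funext fun j => by simp)
      right_inv := fun q => by
        have h : res ((q.2 0).1 + l q.1) = q.1 := by
          rw [map_add, RingHom.mem_ker.1 (q.2 0).2, hl, zero_add]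
        exact Prod.ext h (funext fun j => Subtype.ext (by simp [h])) }
  rw [Nat.card_congr E, Nat.card_prod, Nat.card_fun, Nat.card_zmod]

theorem PhA_single [DecidableEq W] (j : W) (u : Un res) :
    (PhA res θ (Pi.mulSingle j u)).toAdd = (θ u).toAdd * j := by
  change ∑ i, (θ (Pi.mulSingle (M := fun _ => Un res) j u i)).toAdd * i = _
  rw [Finset.sum_eq_single j (fun i _ hi => by simp [hi]) (by simp), Pi.mulSingle_eq_same]

theorem card_TA [Finite R] (N : Ideal W) (hS : ∀ s ∈ S, (s : W) - 1 ∈ N)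
    (h1 : ∀ u, (θ u).toAdd ∈ N) (h2 : ∀ x ∈ N, ∃ u j, (θ u).toAdd * j = x) :
    Nat.card (TA res S θ) * Nat.card N = Nat.card S * Nat.card (Un res) ^ Nat.card W := by
  classical
  have sj : ∀ x ∈ N, ∃ u, (PhA res θ u).toAdd = x := fun x hx => by
    obtain ⟨u, j, e⟩ := h2 x hx
    exact ⟨_, (PhA_single res θ j u).trans e⟩
  have c1 : Nat.card (PhA res θ).range = Nat.card N :=
    Nat.card_congr (Multiplicative.toAdd.subtypeEquiv fun x => ⟨by
      rintro ⟨u, rfl⟩
      exact N.sum_mem fun j _ => N.mul_mem_right _ (h1 _), fun hx => sj _ hx⟩)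
  let ρ : TA res S θ →* S := SemidirectProduct.rightHom.comp (TA res S θ).subtype
  have c2 : ρ.range = ⊤ := MonoidHom.range_eq_top.2 fun s => by
    obtain ⟨u, hu⟩ := sj _ (hS s.1 s.2)
    exact ⟨⟨⟨u, s⟩, hu⟩, rfl⟩
  have c3 : Nat.card ρ.ker = Nat.card (PhA res θ).ker := by
    refine Nat.card_eq_of_bijective (fun g => ⟨g.1.1.left, ?_⟩) ⟨fun g h e => ?_, fun u => ?_⟩
    · have a : (PhA res θ g.1.1.left).toAdd = g.1.1.right.1 - 1 := g.1.2
      rw [show g.1.1.right = 1 from g.2] at a
      simpa using a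
    · exact Subtype.ext (Subtype.ext (SemidirectProduct.ext (congrArg Subtype.val e)
        ((show g.1.1.right = 1 from g.2).trans (show h.1.1.right = 1 from h.2).symm)))
    · refine ⟨⟨⟨⟨u.1, 1⟩, ?_⟩, rfl⟩, rfl⟩
      change (PhA res θ u.1).toAdd = _
      rw [u.2]
      simp
  have c4 := ρ.ker.card_mul_index
  have c5 := (PhA res θ).ker.card_mul_index
  rw [Subgroup.index_ker, c2, Subgroup.card_top, c3] at c4
  rw [Subgroup.index_ker, c1, Nat.card_fun] at c5
  rw [← c4, ← c5]
  ring

theorem counter_all {p : ℕ} (hp : p.Prime) (h2 : p ≠ 2) :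
    ∃ (P : Type) (_ : Group P) (_ : Finite P) (V : Type) (_ : AddCommGroup V) (_ : Module ℂ V)
      (_ : FiniteDimensional ℂ V) (ρ : Representation ℂ P V) (x : P),
      IsPGroup p P ∧ ρ.IsIrreducible ∧ ρ.character x ≠ 0 ∧
      Nat.card P = p ^ 2 * Module.finrank ℂ V ^ 2 ∧ orderOf x = p ^ 3 := by
  classical
  have := Fact.mk hp
  have p3 : 3 ≤ p := by have := hp.two_le; omega
  obtain ⟨R, _, _, π, res, hR⟩ := dw_exists hp (n := 2 * p) (by omega)
  obtain ⟨W, _, _, w, rs, hW⟩ := dw_exists hp (n := p + 1) (by omega)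
  have := Fintype.ofFinite W
  have r0 : res π = 0 := (hR.ker π).2 dvd_rfl
  have w0 : rs w = 0 := (hW.ker w).2 dvd_rfl
  obtain ⟨z, hz⟩ := hR.unit (a := p * π) (by rw [map_mul, r0, mul_zero])
  obtain ⟨y, hy⟩ := hW.unit (a := p * w) (by rw [map_mul, w0, mul_zero])
  have zp : ∀ m : ℕ, (z.1 : R) ^ m = 1 + m * (p * π) := fun m => by
    have e : (p * π) ^ 2 = 0 := by rw [hR.ppi hp, neg_sq, ← pow_mul, mul_comm p, hR.z]
    induction m with
    | zero => simp
    | succ m ih => rw [pow_succ, ih, hz]; push_cast; linear_combination (m : R) * e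
  have zne : z ^ p ^ 1 ≠ 1 := fun e => hR.nz (by
    have a : (z.1 : R) ^ p = 1 := by simpa using congrArg (fun u : Un res => (u.1 : R)) e
    rw [zp, add_eq_left, hR.ppi hp, mul_neg, ← neg_mul, ← hR.pw, ← pow_add] at a
    rwa [show 2 * p - 1 = p - 1 + p by omega])
  have yne : y ^ p ^ 0 ≠ 1 := fun e => hW.nz (by
    have a : (y.1 : W) = 1 := by simpa using congrArg (fun u : Un rs => (u.1 : W)) e
    rwa [hy, add_eq_left, hW.ppi hp, neg_eq_zero] at a)
  obtain ⟨θ, t1, t2⟩ := ex_theta hp (hR.exp2 hp) zne (w := ofAdd w) (by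
    rw [← ofAdd_nsmul, nsmul_eq_mul, Nat.cast_pow, pow_succ, pow_one, mul_assoc, hW.ppi hp,
      mul_neg, ← neg_mul, ← hW.pw, ← pow_add, pow_eq_zero_of_le (by omega) hW.z, ofAdd_zero])
  obtain ⟨ψ, s1, -⟩ := ex_theta hp (hW.exp1 hp) yne (w := ofAdd (1 : ZMod p)) (by
    rw [← ofAdd_nsmul]; simp)
  let S : Subgroup Wˣ := ψ.ker.map (Un rs).subtype
  have cS : Nat.card (RingHom.ker rs) = p * Nat.card S := by
    have a := ψ.ker.card_mul_index
    have b : ψ.range = ⊤ := MonoidHom.range_eq_top.2 fun k => ⟨y ^ k.toAdd.val, by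
      rw [map_pow, s1, ← ofAdd_nsmul]; simp⟩
    rw [Subgroup.index_ker, b, Subgroup.card_top, Nat.card_congr Multiplicative.toAdd,
      Nat.card_zmod, hW.card] at a
    rw [← a, Subgroup.card_map_of_injective (Un rs).subtype_injective, mul_comm]
  have cT := card_TA res S θ (RingHom.ker rs) (by
      rintro _ ⟨s, -, rfl⟩
      rw [RingHom.mem_ker, map_sub, map_one, sub_eq_zero]
      exact mem_Un.1 s.2)
    (fun u => by
      obtain ⟨k, hk⟩ := t2 u
      rw [← hk, RingHom.mem_ker]
      simp [w0])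
    (fun x hx => by
      obtain ⟨c, rfl⟩ := (hW.ker x).1 hx
      exact ⟨z, c, by rw [t1]; rfl⟩)
  have : Finite (TA res S θ) := Finite.of_injective
    (fun g : TA res S θ => (g.1.left, g.1.right)) fun g h e =>
      Subtype.ext (SemidirectProduct.ext (congrArg Prod.fst e) (congrArg Prod.snd e))
  let lam : MA res W := ⟨fun _ => 1, fun _ => rfl⟩
  let mu : MA res W := ⟨Pi.single 1 π, fun j => by
    simp only [Pi.single_apply, apply_ite res, r0, map_zero, ite_self]⟩
  have sl : ∀ (g : TA res S θ) (j : W), (g • lam).1 j = (g.1.left j).1 := fun g j => mul_one _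
  refine general_p hp (T := TA res S θ) lam mu (fun g h => ?_) ?_ (fun m => ?_) fun g h => ?_
  · have a : g.1.left = 1 := funext fun j =>
      Subtype.ext (Units.ext (by rw [← sl, h]; rfl))
    have b : (PhA res θ g.1.left).toAdd = g.1.right.1 - 1 := g.2
    rw [a, map_one, toAdd_one, eq_comm, sub_eq_zero] at b
    exact Subtype.ext (SemidirectProduct.ext a (Subtype.ext (Units.ext b)))
  · rw [card_MA, ← hR.card]
    rw [cS] at cT
    refine Nat.eq_of_mul_eq_mul_right (Nat.card_pos (α := S)) ?_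
    linear_combination (exp := 1) p * cT.symm
  · have e : (p : R) ^ 3 = 0 := by
      rw [← neg_neg (p : R), ← hR.pw, neg_pow, ← pow_mul, pow_eq_zero_of_le (by omega) hR.z,
        mul_zero]
    exact Subtype.ext (funext fun j => by
      change p ^ 3 • m.1 j = 0
      rw [nsmul_eq_mul, Nat.cast_pow, e, zero_mul])
  · have a : g.1.left = Pi.mulSingle 1 (z ^ p) := funext fun j => Subtype.ext (Units.ext (by
      rw [← sl, h]
      change (1 : R) + p ^ 2 • (Pi.single (1 : W) π : W → R) j = _
      by_cases hj : j = 1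
      · rw [hj, Pi.single_eq_same, Pi.mulSingle_eq_same]
        push_cast
        rw [zp, nsmul_eq_mul]
        push_cast
        ring
      · rw [Pi.single_eq_of_ne hj, Pi.mulSingle_eq_of_ne hj]
        simp))
    have b : (PhA res θ g.1.left).toAdd = g.1.right.1 - 1 := g.2
    rw [a, PhA_single, map_pow, t1, mul_one, toAdd_pow, toAdd_ofAdd, nsmul_eq_mul] at b
    obtain ⟨s, hs, e⟩ := g.1.right.2
    have c : s = y := Subtype.ext (Units.ext (by
      rw [hy, b, ← e]
      simp))
    have d : ψ y = 1 := c ▸ hs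
    rw [s1] at d
    exact one_ne_zero (ofAdd_eq_one.1 d)

end Pool.Agent.Lib.MP_6bdd40_al
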