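import Mathlib

namespace Pool.Agent.Lib.MP_6bdd40_al

/-- Eisenstein integers modulo 27 -/
abbrev R : Type := QuadraticAlgebra (ZMod 27) (-1) (-1)

instance : Fintype R := Fintype.ofEquiv _ (QuadraticAlgebra.equivProd (-1 : ZMod 27) (-1)).symm

def zt : R := ⟨0, 1⟩
def four : R := ⟨4, 0⟩
def eta : R := ⟨-2, 3⟩
def pii : R := ⟨-1, 1⟩

abbrev D : Type := Multiplicative (ZMod 3 × ZMod 9 × ZMod 9)

def e (d : D) : R := zt ^ d.toAdd.1.val * four ^ d.toAdd.2.1.val * eta ^ d.toAdd.2.2.val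

lemma pow_val_add {n : ℕ} [NeZero n] (x : R) (h : x ^ n = 1) (a b : ZMod n) :
    x ^ (a + b).val = x ^ a.val * x ^ b.val := by
  rw [ZMod.val_add, ← pow_add, ← pow_eq_pow_mod _ h]

lemma zt_pow : zt ^ 3 = 1 := by decide +kernel
lemma four_pow : four ^ 9 = 1 := by decide +kernel
lemma eta_pow : eta ^ 9 = 1 := by decide +kernel

lemma e_mul (a b : D) : e (a * b) = e a * e b := by
  simp only [e, toAdd_mul, Prod.fst_add, Prod.snd_add, pow_val_add _ zt_pow,
    pow_val_add _ four_pow, pow_val_add _ eta_pow]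
  ring

lemma e_one : e 1 = 1 := by decide +kernel

lemma e_ker : ∀ d : D, e d = 1 → d = 1 := by decide +kernel

lemma e_inj {a b : D} (h : e a = e b) : a = b := by
  have : e (a * b⁻¹) = 1 := by rw [e_mul, h, ← e_mul, mul_inv_cancel, e_one]
  exact mul_inv_eq_one.1 (e_ker _ this)

/-- the element (0,0,3k) of D -/
def dd (k : ZMod 3) : D := Multiplicative.ofAdd (0, 0, 3 * (k.val : ZMod 9))

lemma e_dd : e (dd 1) = 1 + 9 • pii := by decide +kernel

/-- residue modulo the prime above 3 -/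
def res (r : R) : ZMod 3 :=
  ZMod.castHom (by norm_num : 3 ∣ 27) (ZMod 3) r.re + ZMod.castHom (by norm_num : 3 ∣ 27) (ZMod 3) r.im

lemma res_add (x y : R) : res (x + y) = res x + res y := by
  simp only [res, QuadraticAlgebra.re_add, QuadraticAlgebra.im_add, map_add]
  ring

lemma res_neg (x : R) : res (-x) = -res x := by
  simp only [res, QuadraticAlgebra.re_neg, QuadraticAlgebra.im_neg, map_neg]
  ring

lemma res_mul (x y : R) : res (x * y) = res x * res y := by
  simp only [res, QuadraticAlgebra.re_mul, QuadraticAlgebra.im_mul, map_add, map_mul, map_neg,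
    map_one]
  have h3 : (3 : ZMod 3) = 0 := by decide
  linear_combination (-(ZMod.castHom (by norm_num : 3 ∣ 27) (ZMod 3) x.im *
    ZMod.castHom (by norm_num : 3 ∣ 27) (ZMod 3) y.im)) * h3

lemma res_e : ∀ d : D, res (e d) = 1 := by decide +kernel
lemma res_pii : res pii = 0 := by decide +kernel
lemma res_zero : res 0 = 0 := by decide +kernel

def lift (c : ZMod 3) : R := ⟨(c.val : ZMod 27), 0⟩

lemma res_lift : ∀ c : ZMod 3, res (lift c) = c := by decide +kernel

lemma card_ker : Fintype.card {x : R // res x = 0} = 243 := by decide +kernel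

lemma R27 (x : R) : 27 • x = 0 := by
  have h : ((27 : ℕ) : R) = 0 := by decide +kernel
  rw [nsmul_eq_mul, h, zero_mul]

abbrev S : Type := Multiplicative (ZMod 3 × ZMod 3)
abbrev W : Type := ZMod 9 × ZMod 3

def r1 (w : W) : W := (w.1 - 3 * (w.2.val : ZMod 9), (w.1.val : ZMod 3) + w.2)
def r2 (w : W) : W := (4 * w.1, w.2)
def rho (s : S) (w : W) : W := r1^[s.toAdd.1.val] (r2^[s.toAdd.2.val] w)
def ff (s : S) : W :=
  (fun w => r1 w + (1, 0))^[s.toAdd.1.val] ((fun w => r2 w + (6, 2))^[s.toAdd.2.val] 0)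

lemma rho_add : ∀ (s : S) (v w : W), rho s (v + w) = rho s v + rho s w := by decide +kernel
lemma rho_zero : ∀ s : S, rho s 0 = 0 := by decide +kernel
lemma rho_mul : ∀ (s t : S) (w : W), rho (s * t) w = rho s (rho t w) := by decide +kernel
lemma rho_one : ∀ w : W, rho 1 w = w := by decide +kernel
lemma ff_mul : ∀ s t : S, ff (s * t) = ff s + rho s (ff t) := by decide +kernel
lemma ff_one : ff 1 = 0 := by decide +kernel
lemma ff_inj : ∀ (s t : S) (k l : ZMod 3),
    ff s + ((dd k).toAdd.2.2, 0) = ff t + ((dd l).toAdd.2.2, 0) → s = t ∧ k = l := by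
  decide +kernel
lemma ff_surj : ∀ w : W, ∃ (s : S) (k : ZMod 3), w = ff s + ((dd k).toAdd.2.2, 0) := by
  decide +kernel
lemma ff_ne : ∀ s : S, ff s ≠ ((dd 1).toAdd.2.2, 0) := by decide +kernel
lemma ff_eq_zero : ∀ s : S, ff s = 0 → s = 1 := by decide +kernel

end Pool.Agent.Lib.MP_6bdd40_al
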