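import Pool.Agent.Lib.MP_6bdd40_al.General
import Pool.Agent.Lib.MP_6bdd40_al.Pieces

namespace Pool.Agent.Lib.MP_6bdd40_al

def Phi (u : S → D) : W := ∑ j : S, rho j ((u j).toAdd.2.2, 0)

def rhoHom (s : S) : W →+ W where
  toFun := rho s
  map_zero' := rho_zero s
  map_add' := rho_add s

lemma Phi_mul (u v : S → D) : Phi (u * v) = Phi u + Phi v := by
  simp only [Phi, ← Finset.sum_add_distrib, ← rho_add]
  refine Finset.sum_congr rfl fun j _ => ?_
  simp

lemma Phi_one : Phi 1 = 0 := by
  simp only [Phi]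
  refine Finset.sum_eq_zero fun j _ => ?_
  exact rho_zero j

lemma Phi_shift (s : S) (v : S → D) : Phi (fun x => v (s⁻¹ * x)) = rho s (Phi v) := by
  have h : rho s (Phi v) = ∑ j : S, rho s (rho j ((v j).toAdd.2.2, 0)) :=
    map_sum (rhoHom s) _ _
  rw [h, Phi, ← Equiv.sum_comp (Equiv.mulLeft s)]
  refine Finset.sum_congr rfl fun j _ => ?_
  simp [rho_mul]

lemma Phi_single (d : D) : Phi (Pi.mulSingle 1 d) = (d.toAdd.2.2, 0) := by
  rw [Phi, Finset.sum_eq_single (1 : S)]
  · simp [rho_one]
  · intro j _ hj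
    rw [Pi.mulSingle_eq_of_ne hj]
    exact rho_zero j
  · simp

lemma rho_inj (s : S) {v w : W} (h : rho s v = rho s w) : v = w := by
  have := congrArg (rho s⁻¹) h
  rwa [← rho_mul, ← rho_mul, inv_mul_cancel, rho_one, rho_one] at this

lemma Phi_left_mul (g h : RegularWreathProduct D S) :
    Phi (g * h).left = Phi g.left + rho g.right (Phi h.left) := by
  rw [RegularWreathProduct.mul_left, Phi_mul, Phi_shift]

/-- the acting group -/
def TT : Subgroup (RegularWreathProduct D S) where
  carrier := {g | Phi g.left = ff g.right}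
  mul_mem' := by
    intro g h hg hh
    simp only [Set.mem_ofPred_eq] at *
    rw [Phi_left_mul, hg, hh, RegularWreathProduct.mul_right, ff_mul]
  one_mem' := by
    simp only [Set.mem_ofPred_eq, RegularWreathProduct.one_left, RegularWreathProduct.one_right]
    rw [Phi_one, ff_one]
  inv_mem' := by
    intro g hg
    simp only [Set.mem_ofPred_eq] at *
    have h1 := Phi_left_mul g g⁻¹
    have h2 := ff_mul g.right g.right⁻¹
    rw [mul_inv_cancel, RegularWreathProduct.one_left, Phi_one, hg] at h1
    rw [mul_inv_cancel, ff_one] at h2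
    rw [RegularWreathProduct.inv_right]
    exact rho_inj g.right (add_left_cancel (h1.symm.trans h2))

/-- the module -/
def MM : AddSubgroup (S → R) where
  carrier := {r | ∀ j, res (r j) = res (r 1)}
  add_mem' := by
    intro a b ha hb j
    rw [Pi.add_apply, Pi.add_apply, res_add, res_add, ha j, hb j]
  zero_mem' := fun j => rfl
  neg_mem' := by
    intro a ha j
    rw [Pi.neg_apply, Pi.neg_apply, res_neg, res_neg, ha j]

instance : SMul TT MM where
  smul g r := ⟨fun j => e (g.1.left j) * r.1 (g.1.right⁻¹ * j), fun j => by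
    simp only [res_mul, res_e, one_mul]
    rw [r.2, r.2 (g.1.right⁻¹ * 1)]⟩

lemma smul_val (g : TT) (r : MM) (j : S) :
    (g • r).1 j = e (g.1.left j) * r.1 (g.1.right⁻¹ * j) := rfl

instance : DistribMulAction TT MM where
  one_smul r := by
    ext1
    funext j
    rw [smul_val]
    simp [e_one]
  mul_smul g h r := by
    ext1
    funext j
    simp only [smul_val, Subgroup.coe_mul, RegularWreathProduct.mul_left,
      RegularWreathProduct.mul_right, Pi.mul_apply, e_mul, mul_inv_rev, mul_assoc]
  smul_zero g := by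
    ext1
    funext j
    rw [smul_val]
    simp
  smul_add g a b := by
    ext1
    funext j
    simp only [smul_val, AddSubgroup.coe_add, Pi.add_apply, mul_add]

def lam : MM := ⟨fun _ => 1, fun _ => rfl⟩

def mu : MM := ⟨Pi.single 1 pii, fun j => by
  by_cases h : j = 1
  · rw [h]
  · rw [Pi.single_eq_of_ne h, Pi.single_eq_same, res_pii, res_zero]⟩

lemma smul_lam (g : TT) (j : S) : (g • lam).1 j = e (g.1.left j) := by
  rw [smul_val]
  exact mul_one _

lemma free (g : TT) (h : g • lam = lam) : g = 1 := by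
  have h1 : g.1.left = 1 := by
    funext j
    apply e_ker
    rw [← smul_lam, h]
    rfl
  have h2 : g.1.right = 1 := by
    apply ff_eq_zero
    have := g.2
    change Phi g.1.left = ff g.1.right at this
    rw [← this, h1, Phi_one]
  ext1
  exact RegularWreathProduct.ext h1 h2

lemma not_shift (g : TT) : g • lam ≠ lam + 9 • mu := by
  intro h
  have h1 : g.1.left = Pi.mulSingle 1 (dd 1) := by
    funext j
    apply e_inj
    rw [← smul_lam, h]
    change (1 : R) + 9 • (Pi.single (1 : S) pii : S → R) j = _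
    by_cases hj : j = 1
    · rw [hj, Pi.single_eq_same, Pi.mulSingle_eq_same, e_dd]
    · rw [Pi.single_eq_of_ne hj, Pi.mulSingle_eq_of_ne hj, e_one]
      simp
  have h2 := g.2
  change Phi g.1.left = ff g.1.right at h2
  rw [h1, Phi_single] at h2
  exact ff_ne _ h2.symm

lemma card_S : Nat.card S = 9 := by
  rw [Nat.card_eq_fintype_card]
  rfl

lemma card_MM : Nat.card MM = 3 ^ 46 := by
  let E : MM ≃ ZMod 3 × (S → {x : R // res x = 0}) :=
    { toFun := fun r => (res (r.1 1), fun j => ⟨r.1 j + -lift (res (r.1 1)), by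
        rw [res_add, res_neg, res_lift, r.2 j, add_neg_cancel]⟩)
      invFun := fun p => ⟨fun j => (p.2 j).1 + lift p.1, fun j => by
        simp only [res_add, (p.2 j).2, (p.2 1).2]⟩
      left_inv := fun r => by
        ext1
        funext j
        simp
      right_inv := fun p => by
        have h : res ((p.2 1).1 + lift p.1) = p.1 := by
          rw [res_add, (p.2 1).2, res_lift, zero_add]
        refine Prod.ext h ?_
        funext j
        ext1
        simp [h] }
  rw [Nat.card_congr E, Nat.card_prod, Nat.card_fun, card_S, Nat.card_zmod,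
    Nat.card_eq_fintype_card, card_ker]
  norm_num

lemma mem_TT (g : RegularWreathProduct D S) : g ∈ TT ↔ Phi g.left = ff g.right := Iff.rfl

lemma surj_aux (u c : S → D) (s : S) (w : W) (hc : Phi c = w) (h : Phi u = ff s + w) :
    Phi (u * c⁻¹) = ff s := by
  have h1 := Phi_mul (u * c⁻¹) c
  have h2 : u * c⁻¹ * c = u := inv_mul_cancel_right u c
  have h3 : Phi (u * c⁻¹) + w = ff s + w := by
    rw [← h, ← hc, ← h1, h2]
  exact add_right_cancel h3

def cc (k : ZMod 3) : S → D := Pi.mulSingle 1 (dd k)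

lemma Phi_cc (k : ZMod 3) : Phi (cc k) = ((dd k).toAdd.2.2, 0) := Phi_single _

def FF (p : TT × ZMod 3) : S → D := p.1.1.left * cc p.2

lemma Phi_FF (p : TT × ZMod 3) : Phi (FF p) = ff p.1.1.right + ((dd p.2).toAdd.2.2, 0) := by
  rw [FF, Phi_mul, Phi_cc, (mem_TT _).1 p.1.2]

lemma FF_inj : Function.Injective FF := by
  intro p q h
  have h1 := Phi_FF p
  rw [h, Phi_FF q] at h1
  obtain ⟨h2, h3⟩ := ff_inj _ _ _ _ h1
  have h4 : p.1.1.left = q.1.1.left := by
    have : p.1.1.left * cc p.2 = q.1.1.left * cc q.2 := h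
    rw [h3] at this
    exact mul_right_cancel this
  exact Prod.ext (Subtype.ext (RegularWreathProduct.ext h4 h2.symm)) h3.symm

lemma FF_surj : Function.Surjective FF := by
  intro u
  obtain ⟨s, k, h⟩ := ff_surj (Phi u)
  have hm : (⟨u * (cc k)⁻¹, s⟩ : RegularWreathProduct D S) ∈ TT :=
    (mem_TT _).2 (surj_aux u (cc k) s _ (Phi_cc k) h)
  exact ⟨(⟨_, hm⟩, k), inv_mul_cancel_right u (cc k)⟩

lemma card_D : Nat.card D = 3 ^ 5 := by
  rw [Nat.card_eq_fintype_card]
  simp

lemma card_TT : Nat.card TT = 3 ^ 44 := by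
  have h1 := Nat.card_eq_of_bijective FF ⟨FF_inj, FF_surj⟩
  rw [Nat.card_prod, Nat.card_fun, card_S, Nat.card_zmod, card_D] at h1
  apply Nat.eq_of_mul_eq_mul_right (show 0 < 3 by norm_num)
  rw [h1]
  norm_num

theorem counter : ∃ (P : Type) (_ : Group P) (V : Type) (_ : AddCommGroup V) (_ : Module ℂ V)
    (ρ : Representation ℂ P V) (x : P), Nat.card P = 3 ^ 90 ∧ ρ.IsIrreducible ∧
      Module.finrank ℂ V = 3 ^ 44 ∧ LinearMap.trace ℂ V (ρ x) ≠ 0 ∧ orderOf x = 27 := by
  have : Finite MM := Nat.finite_of_card_ne_zero (by rw [card_MM]; norm_num)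
  have : Finite TT := Nat.finite_of_card_ne_zero (by rw [card_TT]; norm_num)
  have := Fintype.ofFinite MM
  have := Fintype.ofFinite TT
  have h27 : ∀ m : MM, 27 • m = 0 := by
    intro m
    ext1
    funext j
    exact R27 (m.1 j)
  obtain ⟨x, h⟩ := general (M := MM) (T := TT) lam mu free card_MM card_TT h27 not_shift
  exact ⟨Grp MM TT, inferInstance, TT → ℂ, inferInstance, inferInstance, rep lam, x, h⟩

end Pool.Agent.Lib.MP_6bdd40_al
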