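import Mathlib

namespace Pool.Agent.Lib.MP_6bdd40_al

variable (M : Type) [AddCommGroup M] (T : Type) [Group T] [DistribMulAction T M]

/-- the dual action of T on the character group of M -/
noncomputable def dualAct : T →* MulAut (AddChar M ℂ) where
  toFun t :=
    { toFun := fun ψ => ψ.compAddMonoidHom (DistribSMul.toAddMonoidHom M t⁻¹)
      invFun := fun ψ => ψ.compAddMonoidHom (DistribSMul.toAddMonoidHom M t)
      left_inv := fun ψ => by ext m; simp
      right_inv := fun ψ => by ext m; simp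
      map_mul' := fun ψ φ => by ext m; simp }
  map_one' := by ext ψ m; simp
  map_mul' s t := by ext ψ m; simp [mul_smul]

@[simp] lemma dualAct_apply (t : T) (ψ : AddChar M ℂ) (m : M) :
    dualAct M T t ψ m = ψ (t⁻¹ • m) := rfl

/-- the semidirect product -/
abbrev Grp : Type := AddChar M ℂ ⋊[dualAct M T] T

variable {M T}

/-- the representation induced from evaluation at lam -/
noncomputable def rep (lam : M) : Representation ℂ (Grp M T) (T → ℂ) where
  toFun g :=
    { toFun := fun v s => g.left (s • lam) * v (g.right⁻¹ * s)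
      map_add' := fun v w => by funext s; simp [mul_add]
      map_smul' := fun c v => by funext s; simp [mul_left_comm] }
  map_one' := by ext v s; simp
  map_mul' g h := by
    ext v s
    simp [mul_smul, mul_assoc]

lemma rep_apply (lam : M) (g : Grp M T) (v : T → ℂ) (s : T) :
    rep lam g v s = g.left (s • lam) * v (g.right⁻¹ * s) := rfl

variable [Fintype M] [Fintype T]

theorem rep_irreducible (lam : M) (hfree : ∀ t : T, t • lam = lam → t = 1) :
    (rep (T := T) lam).IsIrreducible := by
  classical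
  have hinj : ∀ s t : T, s • lam = t • lam → s = t := by
    intro s t h
    have : (t⁻¹ * s) • lam = lam := by rw [mul_smul, h, inv_smul_smul]
    have := hfree _ this
    exact (inv_mul_eq_one.1 this).symm
  have hnt : Nontrivial (Subrepresentation (rep (T := T) lam)) := by
    refine ⟨⊥, ⊤, fun h => ?_⟩
    have h1 : (⊥ : Submodule ℂ (T → ℂ)) = ⊤ := congrArg Subrepresentation.toSubmodule h
    exact bot_ne_top h1
  refine { eq_bot_or_eq_top := fun S => ?_ }
  by_cases h : S.toSubmodule = ⊥
  · exact Or.inl (Subrepresentation.toSubmodule_injective h)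
  right
  apply Subrepresentation.toSubmodule_injective
  change S.toSubmodule = ⊤
  obtain ⟨v, hv, hv0⟩ := (Submodule.ne_bot_iff _).1 h
  obtain ⟨s0, hs0⟩ := Function.ne_iff.1 hv0
  have hs0' : v s0 ≠ 0 := hs0
  have h1 : ∑ ψ : AddChar M ℂ, ψ (-(s0 • lam)) • rep (T := T) lam (SemidirectProduct.inl ψ) v
      ∈ S.toSubmodule :=
    Submodule.sum_mem _ fun ψ _ => Submodule.smul_mem _ _ (S.apply_mem_toSubmodule _ hv)
  have h2 : ∑ ψ : AddChar M ℂ, ψ (-(s0 • lam)) • rep (T := T) lam (SemidirectProduct.inl ψ) v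
      = ((Fintype.card M : ℂ) * v s0) • (Pi.single s0 1 : T → ℂ) := by
    funext s
    have h3 : ∀ ψ : AddChar M ℂ,
        (ψ (-(s0 • lam)) • rep (T := T) lam (SemidirectProduct.inl ψ) v) s
          = ψ (s • lam - s0 • lam) * v s := by
      intro ψ
      rw [Pi.smul_apply, rep_apply, sub_eq_neg_add, AddChar.map_add_eq_mul]
      simp [mul_assoc]
    rw [Finset.sum_apply, Finset.sum_congr rfl fun ψ _ => h3 ψ, ← Finset.sum_mul,
      AddChar.sum_apply_eq_ite]
    by_cases hs : s = s0
    · subst hs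
      simp
    · have : s • lam - s0 • lam ≠ 0 := fun h => hs (hinj _ _ (sub_eq_zero.1 h))
      simp [this, hs]
  rw [h2] at h1
  have hc : (Fintype.card M : ℂ) * v s0 ≠ 0 :=
    mul_ne_zero (Nat.cast_ne_zero.2 Fintype.card_ne_zero) hs0'
  have h4 : (Pi.single s0 1 : T → ℂ) ∈ S.toSubmodule := (Submodule.smul_mem_iff _ hc).1 h1
  have h5 : ∀ s : T, (Pi.single s 1 : T → ℂ) ∈ S.toSubmodule := by
    intro s
    have h6 := S.apply_mem_toSubmodule (SemidirectProduct.inr (s * s0⁻¹)) h4
    have h7 : rep (T := T) lam (SemidirectProduct.inr (s * s0⁻¹)) (Pi.single s0 1)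
        = (Pi.single s 1 : T → ℂ) := by
      funext r
      rw [rep_apply]
      by_cases hr : r = s
      · subst hr
        simp
      · have : s0 * s⁻¹ * r ≠ s0 := by
          intro h
          apply hr
          rw [mul_assoc, mul_eq_left, inv_mul_eq_one] at h
          exact h.symm
        simp [hr, this]
    rwa [h7] at h6
  rw [eq_top_iff]
  intro w _
  rw [← Finset.univ_sum_single w]
  refine Submodule.sum_mem _ fun s _ => ?_
  have : (Pi.single s (w s) : T → ℂ) = w s • (Pi.single s 1 : T → ℂ) := by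
    rw [← Pi.single_smul]
    simp
  rw [this]
  exact Submodule.smul_mem _ _ (h5 s)

omit [Fintype M] in
lemma char_inl (lam : M) (ψ : AddChar M ℂ) :
    (rep (T := T) lam).character (SemidirectProduct.inl ψ) = ∑ s : T, ψ (s • lam) := by
  classical
  unfold Representation.character
  rw [LinearMap.trace_eq_matrix_trace ℂ (Pi.basisFun ℂ T)]
  simp [Matrix.trace, rep_apply]

theorem exists_char (lam a : M) (ha : ∀ t : T, t • lam ≠ lam + a) :
    ∃ ψ : AddChar M ℂ, ψ a ≠ 1 ∧ ∑ s : T, ψ (s • lam) ≠ 0 := by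
  classical
  by_contra! h
  have h1 : ∑ ψ : AddChar M ℂ, (∑ s : T, ψ (s • lam)) * ψ (-(lam + a))
      = ∑ ψ : AddChar M ℂ, (∑ s : T, ψ (s • lam)) * ψ (-lam) := by
    refine Finset.sum_congr rfl fun ψ _ => ?_
    by_cases hψ : ψ a = 1
    · rw [neg_add, AddChar.map_add_eq_mul, AddChar.map_neg_eq_inv ψ a, hψ]
      simp
    · rw [h ψ hψ]
      simp
  have h2 : ∀ b : M, ∑ ψ : AddChar M ℂ, (∑ s : T, ψ (s • lam)) * ψ (-b)
      = ∑ s : T, if s • lam - b = 0 then (Fintype.card M : ℂ) else 0 := by
    intro b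
    simp only [Finset.sum_mul]
    rw [Finset.sum_comm]
    refine Finset.sum_congr rfl fun s _ => ?_
    rw [← AddChar.sum_apply_eq_ite]
    refine Finset.sum_congr rfl fun ψ _ => ?_
    rw [sub_eq_add_neg, AddChar.map_add_eq_mul]
  rw [h2, h2] at h1
  have h3 : (∑ s : T, if s • lam - (lam + a) = 0 then (Fintype.card M : ℂ) else 0) = 0 :=
    Finset.sum_eq_zero fun s _ => if_neg fun h => ha s (sub_eq_zero.1 h)
  rw [h3, ← Finset.sum_filter, Finset.sum_const, nsmul_eq_mul] at h1
  have h4 : (Finset.univ.filter fun s : T => s • lam - lam = 0).card ≠ 0 :=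
    Finset.card_ne_zero.2 ⟨1, by simp⟩
  exact mul_ne_zero (Nat.cast_ne_zero.2 h4) (Nat.cast_ne_zero.2 Fintype.card_ne_zero) h1.symm

theorem general (lam mu : M) (hfree : ∀ t : T, t • lam = lam → t = 1)
    (hM : Nat.card M = 3 ^ 46) (hT : Nat.card T = 3 ^ 44) (h27 : ∀ m : M, 27 • m = 0)
    (ha : ∀ t : T, t • lam ≠ lam + 9 • mu) :
    ∃ x : Grp M T, Nat.card (Grp M T) = 3 ^ 90 ∧ (rep (T := T) lam).IsIrreducible ∧
      Module.finrank ℂ (T → ℂ) = 3 ^ 44 ∧ (rep (T := T) lam).character x ≠ 0 ∧ orderOf x = 27 := by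
  obtain ⟨ψ, h1, h2⟩ := exists_char lam (9 • mu) ha
  refine ⟨SemidirectProduct.inl ψ, ?_, rep_irreducible lam hfree, ?_, ?_, ?_⟩
  · rw [SemidirectProduct.card, hT, Nat.card_eq_fintype_card, AddChar.card_eq,
      ← Nat.card_eq_fintype_card, hM, ← pow_add]
  · rw [Module.finrank_fintype_fun_eq_card, ← Nat.card_eq_fintype_card, hT]
  · rw [char_inl]
    exact h2
  · rw [orderOf_injective _ SemidirectProduct.inl_injective]
    have := Fact.mk Nat.prime_three
    refine orderOf_eq_prime_pow (p := 3) (n := 2) ?_ ?_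
    · intro h
      apply h1
      have := DFunLike.congr_fun h mu
      rw [AddChar.map_nsmul_eq_pow]
      simpa using this
    · ext m
      have : ψ (27 • m) = 1 := by rw [h27]; exact ψ.map_zero_eq_one
      rw [AddChar.map_nsmul_eq_pow] at this
      simpa using this

end Pool.Agent.Lib.MP_6bdd40_al
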