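import Pool.Agent.Lib.MP_6bdd40_al.Build

/-- A finite 3-group P of order 3^90, an irreducible complex representation of degree 3^44 and an
element x of order 27 with nonzero character value; |P| / χ(1)^2 = 9 is not divisible by 27. -/
theorem Pool.Agent.Lib.MP_6bdd40_al.old_three :
    ∃ (P : Type) (_ : Group P) (_ : Finite P) (V : Type) (_ : AddCommGroup V) (_ : Module ℂ V)
      (_ : FiniteDimensional ℂ V) (ρ : Representation ℂ P V) (x : P),
      IsPGroup 3 P ∧ ρ.IsIrreducible ∧ ρ.character x ≠ 0 ∧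
      Nat.card P = 3 ^ 90 ∧ Module.finrank ℂ V = 3 ^ 44 ∧ orderOf x = 27 ∧
      ¬ orderOf x ∣ Nat.card P / Module.finrank ℂ V ^ 2 := by
  obtain ⟨P, iG, V, iA, iM, ρ, x, h1, h2, h3, h4, h5⟩ := Pool.Agent.Lib.MP_6bdd40_al.counter
  have hfin : Finite P := Nat.finite_of_card_ne_zero (by rw [h1]; norm_num)
  have hfd : FiniteDimensional ℂ V := Module.finite_of_finrank_pos (by rw [h3]; norm_num)
  refine ⟨P, iG, hfin, V, iA, iM, hfd, ρ, x, IsPGroup.of_card h1, h2, h4, h1, h3, h5, ?_⟩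
  rw [h1, h3, h5]
  norm_num
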